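import Pool.Agent.W586.CS.Stm

/-!
Project CS, task CS-LOWER: lower bound for the full operator.
-/

set_option autoImplicit false
open MvPolynomial

namespace Pool.Agent.W369.CS

open Pool.Agent.W586.CS

section Ops

variable {d : ℕ} {ι : Type} [Fintype ι]

/-- the symmetric part of the `j`-th term -/
noncomputable def P (A : Fin d → Matrix ι ι ℝ) (j : Fin d) : V d ι →ₗ[ℝ] V d ι :=
  Xm ι j - Am (A j)

/-- the antisymmetric part of the `j`-th term -/
noncomputable def Q (ι : Type) (j : Fin d) : V d ι →ₗ[ℝ] V d ι := Dm ι j - Xm ι j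

theorem P_apply (A : Fin d → Matrix ι ι ℝ) (j : Fin d) (f : V d ι) (I : Finset (Fin d)) (a : ι) :
    P A j f I a = X j * f I a - ∑ b, A j a b • f I b := rfl

omit [Fintype ι] in
theorem Q_apply (j : Fin d) (f : V d ι) (I : Finset (Fin d)) (a : ι) :
    Q ι j f I a = pderiv j (f I a) - X j * f I a := rfl

omit [Fintype ι] in
theorem G_apply (j : Fin d) (f : V d ι) (I : Finset (Fin d)) (a : ι) :
    G ι j f I a = sg j I • f (fl j I) a := rfl

omit [Fintype ι] in
theorem C_apply (j : Fin d) (f : V d ι) (I : Finset (Fin d)) (a : ι) :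
    Cc ι j f I a = (ep j I * sg j I) • f (fl j I) a := rfl

theorem P_G (A : Fin d → Matrix ι ι ℝ) (j k : Fin d) (f : V d ι) :
    P A j (G ι k f) = G ι k (P A j f) := by
  funext I a
  rw [P_apply, G_apply, G_apply, P_apply, smul_sub, Finset.smul_sum, mul_smul_comm]
  congr 1
  refine Finset.sum_congr rfl fun b _ => ?_
  rw [G_apply, smul_comm]

theorem P_C (A : Fin d → Matrix ι ι ℝ) (j k : Fin d) (f : V d ι) :
    P A j (Cc ι k f) = Cc ι k (P A j f) := by
  funext I a
  rw [P_apply, C_apply, C_apply, P_apply, smul_sub, Finset.smul_sum, mul_smul_comm]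
  congr 1
  refine Finset.sum_congr rfl fun b _ => ?_
  rw [C_apply, smul_comm]

omit [Fintype ι] in
theorem Q_G (j k : Fin d) (f : V d ι) : Q ι j (G ι k f) = G ι k (Q ι j f) := by
  funext I a
  rw [Q_apply, G_apply, G_apply, Q_apply, smul_sub, mul_smul_comm, Derivation.map_smul]

omit [Fintype ι] in
theorem Q_C (j k : Fin d) (f : V d ι) : Q ι j (Cc ι k f) = Cc ι k (Q ι j f) := by
  funext I a
  rw [Q_apply, C_apply, C_apply, Q_apply, smul_sub, mul_smul_comm, Derivation.map_smul]

theorem Q_P (A : Fin d → Matrix ι ι ℝ) (j k : Fin d) (f : V d ι) :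
    Q ι k (P A j f) = P A j (Q ι k f) + if j = k then f else 0 := by
  funext I a
  rw [Pi.add_apply, Pi.add_apply, Q_apply, P_apply, P_apply, Q_apply, map_sub, map_sum,
    Derivation.leibniz]
  have h1 : ∀ b, pderiv k (A j a b • f I b) = A j a b • pderiv k (f I b) :=
    fun b => Derivation.map_smul _ _ _
  have h2 : ∀ b, A j a b • (Q ι k f) I b =
      A j a b • pderiv k (f I b) - X k * (A j a b • f I b) := by
    intro b
    rw [Q_apply, smul_sub, mul_smul_comm]
  simp only [h1, h2, Finset.sum_sub_distrib, ← Finset.mul_sum, smul_eq_mul]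
  by_cases hjk : j = k
  · subst hjk
    rw [if_pos rfl, pderiv_X_self]
    ring
  · rw [if_neg hjk, pderiv_X_of_ne (fun h => hjk h)]
    simp only [Pi.zero_apply]
    ring

theorem op_eq (A : Fin d → Matrix ι ι ℝ) (f : V d ι) :
    B0 d ι f + KK A f = (∑ j : Fin d, G ι j (P A j f)) + ∑ j : Fin d, Cc ι j (Q ι j f) := by
  unfold B0 KK
  rw [LinearMap.neg_apply, LinearMap.sum_apply, LinearMap.sum_apply, ← sub_eq_add_neg,
    ← Finset.sum_sub_distrib, ← Finset.sum_add_distrib]
  refine Finset.sum_congr rfl fun j _ => ?_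
  rw [LinearMap.add_apply, LinearMap.comp_apply, LinearMap.comp_apply, LinearMap.comp_apply]
  unfold P Q
  rw [LinearMap.sub_apply (Xm ι j), map_sub (G ι j)]
  abel

/-- evaluation of the localizer part -/
theorem eval_L (A : Fin d → Matrix ι ι ℝ) (f : V d ι) (x : Fin d → ℝ) (I : Finset (Fin d))
    (a : ι) : eval x ((∑ j : Fin d, G ι j (P A j f)) I a) =
      -Lx A x (fun I a => eval x (f I a)) I a := by
  unfold Lx
  rw [Finset.sum_apply, Finset.sum_apply, map_sum, ← Finset.sum_neg_distrib]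
  refine Finset.sum_congr rfl fun j _ => ?_
  rw [G_apply, P_apply, smul_eval, map_sub, map_mul, eval_X, map_sum]
  have h : ∀ b, eval x (A j a b • f (fl j I) b) = A j a b * eval x (f (fl j I) b) :=
    fun b => smul_eval _ _ _
  simp only [h]
  ring

end Ops

theorem main : S_REL → S_IP → S_LOWER := by
  intro hrel hip d ι _ g A hA hL f
  obtain ⟨hsym, hadd, hsmul, hpos, hG, hC, hX, hD, hAm⟩ := hip d ι g
  obtain ⟨-, -, -, -, hGC, hCG⟩ := hrel d ι
  let b1 : V d ι → (V d ι →ₗ[ℝ] ℝ) := fun h =>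
    { toFun := fun f => ip g f h
      map_add' := fun f f' => hadd f f' h
      map_smul' := fun c f => hsmul c f h }
  have hsum1 : ∀ (u : Fin d → V d ι) h, ip g (∑ j, u j) h = ∑ j, ip g (u j) h :=
    fun u h => map_sum (b1 h) u Finset.univ
  have hneg1 : ∀ u h : V d ι, ip g (-u) h = -ip g u h := fun u h => map_neg (b1 h) u
  have hsub1 : ∀ u v h : V d ι, ip g (u - v) h = ip g u h - ip g v h :=
    fun u v h => map_sub (b1 h) u v
  have hzero1 : ∀ h : V d ι, ip g 0 h = 0 := fun h => map_zero (b1 h)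
  have hadd2 : ∀ u v h : V d ι, ip g h (u + v) = ip g h u + ip g h v := by
    intro u v h
    rw [hsym, hadd, hsym u, hsym v]
  have hneg2 : ∀ u h : V d ι, ip g h (-u) = -ip g h u := by
    intro u h
    rw [hsym, hneg1, hsym u]
  have hsub2 : ∀ u v h : V d ι, ip g h (u - v) = ip g h u - ip g h v := by
    intro u v h
    rw [hsym, hsub1, hsym u, hsym v]
  have hsmul2 : ∀ (c : ℝ) (u h : V d ι), ip g h (c • u) = c * ip g h u := by
    intro c u h
    rw [hsym, hsmul, hsym u]
  have hzero2 : ∀ h : V d ι, ip g h 0 = 0 := by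
    intro h
    rw [hsym, hzero1]
  have hsum2 : ∀ (u : Fin d → V d ι) h, ip g h (∑ j, u j) = ∑ j, ip g h (u j) := by
    intro u h
    rw [hsym, hsum1]
    exact Finset.sum_congr rfl fun j _ => hsym _ _
  -- `P` is symmetric, `Q` antisymmetric
  have hP : ∀ (j : Fin d) (u h : V d ι), ip g (P A j u) h = ip g u (P A j h) := by
    intro j u h
    unfold P
    rw [LinearMap.sub_apply, LinearMap.sub_apply, hsub1, hsub2, hX, hAm (A j) u h (hA j)]
  have hQ : ∀ (j : Fin d) (u h : V d ι), ip g (Q ι j u) h = -ip g u (Q ι j h) := by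
    intro j u h
    unfold Q
    rw [LinearMap.sub_apply, LinearMap.sub_apply, hsub1, hsub2, hX, hD, hsub2, hsmul2]
    ring
  -- the mixed terms
  have hmix : ∀ j k : Fin d, 2 * ip g (G ι j (P A j f)) (Cc ι k (Q ι k f)) =
      if j = k then ip g f (Cc ι j (G ι j f)) else 0 := by
    intro j k
    have e1 : ip g (G ι j (P A j f)) (Cc ι k (Q ι k f)) =
        ip g f (G ι j (Cc ι k (P A j (Q ι k f)))) := by
      rw [hG, hP, P_G, P_C]
    have e2 : ip g (G ι j (P A j f)) (Cc ι k (Q ι k f)) =
        -ip g f (G ι j (Cc ι k (Q ι k (P A j f)))) := by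
      rw [hsym, hC, hQ, Q_C, Q_G, neg_neg, hGC, hneg2, neg_neg]
    have e3 : 2 * ip g (G ι j (P A j f)) (Cc ι k (Q ι k f)) =
        ip g f (G ι j (Cc ι k (P A j (Q ι k f)))) - ip g f (G ι j (Cc ι k (Q ι k (P A j f)))) := by
      linarith
    rw [e3, Q_P, map_add, map_add, hadd2]
    by_cases hjk : j = k
    · subst hjk
      rw [if_pos rfl, if_pos rfl, hGC j j f, hneg2]
      ring
    · rw [if_neg hjk, if_neg hjk, map_zero, map_zero, hzero2]
      ring
  have hmix2 : 2 * ip g (∑ j, G ι j (P A j f)) (∑ k, Cc ι k (Q ι k f)) =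
      ∑ j, ip g f (Cc ι j (G ι j f)) := by
    rw [hsum1, Finset.mul_sum]
    refine Finset.sum_congr rfl fun j _ => ?_
    rw [hsum2, Finset.mul_sum, Finset.sum_congr rfl fun k _ => hmix j k]
    simp
  have hnn : ∀ p : MvPolynomial (Fin d) ℝ, 0 ≤ g.Φ (p * p) := by
    intro p
    refine g.nonneg _ fun x => ?_
    rw [map_mul]
    exact mul_self_nonneg _
  have hlow : ∀ j : Fin d, -ip g f f ≤ ip g f (Cc ι j (G ι j f)) := by
    intro j
    unfold ip
    rw [← Finset.sum_neg_distrib]
    refine Finset.sum_le_sum fun I _ => ?_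
    rw [← Finset.sum_neg_distrib]
    refine Finset.sum_le_sum fun a _ => ?_
    rw [hCG, mul_smul_comm, map_smul, smul_eq_mul]
    have h1 : -1 ≤ ep j I := by
      unfold ep
      split_ifs <;> norm_num
    have h2 := hnn (f I a)
    nlinarith
  have hmix3 : -((d : ℝ) * ip g f f) ≤
      2 * ip g (∑ j, G ι j (P A j f)) (∑ k, Cc ι k (Q ι k f)) := by
    rw [hmix2]
    have h := Finset.sum_le_sum fun (j : Fin d) (_ : j ∈ Finset.univ) => hlow j
    rw [Finset.sum_const, Finset.card_univ, Fintype.card_fin, nsmul_eq_mul] at h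
    linarith
  -- the square of the second part
  have hS : 0 ≤ ip g (∑ k, Cc ι k (Q ι k f)) (∑ k, Cc ι k (Q ι k f)) := by
    unfold ip
    exact Finset.sum_nonneg fun I _ => Finset.sum_nonneg fun a _ => hnn _
  -- the square of the first part
  have hLL : ((d : ℝ) + 1) * ip g f f ≤ ip g (∑ j, G ι j (P A j f)) (∑ j, G ι j (P A j f)) := by
    set F : V d ι := ∑ j, G ι j (P A j f) with hF
    set q : MvPolynomial (Fin d) ℝ := (∑ I : Finset (Fin d), ∑ a, F I a * F I a) -
      ((d : ℝ) + 1) • ∑ I : Finset (Fin d), ∑ a, f I a * f I a with hq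
    have h1 : g.Φ q = ip g F F - ((d : ℝ) + 1) * ip g f f := by
      rw [hq, map_sub, map_smul, smul_eq_mul]
      unfold ip
      simp only [map_sum]
    have h2 : 0 ≤ g.Φ q := by
      refine g.nonneg q fun x => ?_
      have h3 := hL x (fun I a => eval x (f I a))
      have h4 : eval x q = nsq (Lx A x (fun I a => eval x (f I a))) -
          ((d : ℝ) + 1) * nsq (fun I a => eval x (f I a)) := by
        rw [hq, map_sub, smul_eval]
        unfold nsq
        simp only [map_sum, map_mul]
        congr 1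
        · refine Finset.sum_congr rfl fun I _ => Finset.sum_congr rfl fun a _ => ?_
          rw [hF, eval_L]
          ring
        · congr 1
          refine Finset.sum_congr rfl fun I _ => Finset.sum_congr rfl fun a _ => ?_
          ring
      rw [h4]
      linarith
    linarith
  rw [op_eq, hadd, hadd2, hadd2]
  have h5 := hsym (∑ k, Cc ι k (Q ι k f)) (∑ j, G ι j (P A j f))
  linarith

end Pool.Agent.W369.CS
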